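import Mathlib

set_option autoImplicit false

namespace Pool.Agent.Lib.MP_9c288a_pr

variable {N k : ℕ}

/-- A word of `N` steps; a step has a side (`true` = left, `false` = right) and a direction
(`true` = up). -/
abbrev Word (N : ℕ) := Fin N → Bool × Bool

/-- The left (`s = true`) and right (`s = false`) boundary length at time `t`. -/
def walk (w : Word N) (s : Bool) (t : ℕ) : ℤ :=
  ∑ i : Fin N, if (i : ℕ) < t ∧ (w i).1 = s then (if (w i).2 = true then 1 else -1) else 0

/-- Both walks are excursions: the word is the contour word of a tree-rooted planar map. -/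
def Exc (w : Word N) : Prop := ∀ s, (∀ t, 0 ≤ walk w s t) ∧ walk w s N = 0

/-- The times `a`, `b` lie at the same vertex (`s = true`) or in the same face (`s = false`). -/
def Glue (w : Word N) (s : Bool) (a b : ℕ) : Prop :=
  walk w s a = walk w s b ∧ ∀ t, min a b ≤ t → t ≤ max a b → walk w s a ≤ walk w s t

/-- The edges of the map: an up step with its matching down step. The edge `(i, j)` joins the
vertices of the times `i`, `j` and separates the faces of the times `i`, `j`. -/
def Edge (w : Word N) : Set (Fin N × Fin N) :=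
  {e | e.1 < e.2 ∧ (w e.1).1 = (w e.2).1 ∧ (w e.1).2 = true ∧ (w e.2).2 = false ∧
    Glue w (w e.1).1 (e.1 + 1) e.2}

/-- The vertices (`s = true`) or faces (`s = false`) of two times are joined through `T`. -/
def Conn (w : Word N) (s : Bool) (T : Set (Fin N × Fin N)) : ℕ → ℕ → Prop :=
  Relation.EqvGen fun a b => Glue w s a b ∨ ∃ e ∈ T, a = e.1 ∧ b = e.2

/-- `T` is a spanning tree of the map: it connects all vertices and each of its edges is a
bridge. -/
def IsTree (w : Word N) (T : Set (Fin N × Fin N)) : Prop :=
  T ⊆ Edge w ∧ (∀ a, Conn w true T a 0) ∧ ∀ e ∈ T, ¬ Conn w true (T \ {e}) e.1 e.2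

/-- The half-edge crossed by the step `i` of the Peano curve carries a Temperley dimer of `T`:
for a right step, its edge is in `T` and leads from the current vertex towards the root vertex;
for a left step, its edge is outside `T` and leads from the current face towards the root face
in the dual tree. -/
def Crossed (w : Word N) (T : Set (Fin N × Fin N)) (i : Fin N) : Prop :=
  ∃ e ∈ Edge w, (e.1 = i ∨ e.2 = i) ∧
    if (w i).1 = true then e ∉ T ∧ ¬ Conn w false ((Edge w \ T) \ {e}) i 0
    else e ∈ T ∧ ¬ Conn w true (T \ {e}) i 0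

open Classical in
/-- The height function of `T` minus that of the contour tree, at time `t`. -/
noncomputable def height (w : Word N) (T : Set (Fin N × Fin N)) (t : ℕ) : ℤ :=
  ∑ i : Fin N, if (i : ℕ) < t ∧ Crossed w T i then (if (w i).1 = true then 1 else -1) else 0

/-- The integrated height. -/
noncomputable def Phi (w : Word N) (T : Set (Fin N × Fin N)) (t : ℕ) : ℤ :=
  ∑ s ∈ Finset.range t, height w T s

/-- Tree-rooted maps with side pattern `τ`, carrying `k` further spanning trees. -/
def Omega (k : ℕ) (τ : Fin N → Bool) : Set (Word N × (Fin k → Set (Fin N × Fin N))) :=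
  {ω | Exc ω.1 ∧ (∀ i, (ω.1 i).1 = τ i) ∧ ∀ j, IsTree ω.1 (ω.2 j)}

/-- The integrated heights modulo linear functions. -/
noncomputable def G (ω : Word N × (Fin k → Set (Fin N × Fin N))) :
    Fin k → Fin (N + 1) → Fin (N + 1) → ℤ :=
  fun j t u => ((u : ℕ) : ℤ) * Phi ω.1 (ω.2 j) t - ((t : ℕ) : ℤ) * Phi ω.1 (ω.2 j) u

end Pool.Agent.Lib.MP_9c288a_pr
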