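import Pool.Agent.Lib.MP_9c288a_pr.Word

set_option autoImplicit false

/-!
Exchange of the left and right data and the conditional independence.
-/

namespace Pool.Agent.Lib.MP_9c288a_pr

theorem rect {Ω A B : Type} (F : Set Ω) (α : Ω → A) (β : Ω → B)
    (inj : ∀ x ∈ F, ∀ y ∈ F, α x = α y → β x = β y → x = y)
    (mix : ∀ x ∈ F, ∀ y ∈ F, ∃ z ∈ F, α z = α x ∧ β z = β y) (p q : Ω → Prop)
    (hp : ∀ x ∈ F, ∀ y ∈ F, α x = α y → p x → p y)
    (hq : ∀ x ∈ F, ∀ y ∈ F, β x = β y → q x → q y) :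
    {x ∈ F | p x ∧ q x}.ncard * F.ncard = {x ∈ F | p x}.ncard * {x ∈ F | q x}.ncard := by
  choose! f f1 f2 f3 using mix
  have ff : ∀ x ∈ F, ∀ y ∈ F, f (f x y) (f y x) = x := fun x hx y hy =>
    inj _ (f1 _ (f1 x hx y hy) _ (f1 y hy x hx)) _ hx
      ((f2 _ (f1 x hx y hy) _ (f1 y hy x hx)).trans (f2 x hx y hy))
      ((f3 _ (f1 x hx y hy) _ (f1 y hy x hx)).trans (f3 y hy x hx))
  rw [← Set.ncard_prod, ← Set.ncard_prod]
  refine Set.ncard_congr (fun a _ => (f a.1 a.2, f a.2 a.1)) ?_ ?_ ?_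
  · rintro ⟨x, y⟩ ⟨⟨hx, h1, h2⟩, hy⟩
    exact ⟨⟨f1 x hx y hy, hp x hx _ (f1 x hx y hy) (f2 x hx y hy).symm h1⟩,
      f1 y hy x hx, hq x hx _ (f1 y hy x hx) (f3 y hy x hx).symm h2⟩
  · rintro ⟨x, y⟩ ⟨x', y'⟩ ⟨⟨hx, -⟩, hy⟩ ⟨⟨hx', -⟩, hy'⟩ h
    obtain ⟨h1, h2⟩ := Prod.ext_iff.1 h
    simp only at h1 h2 hx hy hx' hy'
    exact Prod.ext (by rw [← ff x hx y hy, h1, h2, ff x' hx' y' hy'])
      (by rw [← ff y hy x hx, h1, h2, ff y' hy' x' hx'])
  · rintro ⟨x, y⟩ ⟨⟨hx, h1⟩, hy, h2⟩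
    exact ⟨(f x y, f y x), ⟨⟨f1 x hx y hy, hp x hx _ (f1 x hx y hy) (f2 x hx y hy).symm h1,
      hq y hy _ (f1 x hx y hy) (f3 x hx y hy).symm h2⟩, f1 y hy x hx⟩,
      Prod.ext (ff x hx y hy) (ff y hy x hx)⟩

variable {N k : ℕ} {τ : Fin N → Bool} {x y : Word N × (Fin k → Set (Fin N × Fin N))}

/-- The dimers of a spanning tree. -/
def Dm (w : Word N) (T : Set (Fin N × Fin N)) (i : Fin N) (s : Bool) : Prop :=
  ∃ hw : Exc w, (pe hw).DT (fun i => ed hw i ∈ T) i s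

theorem dm_iff {w : Word N} (hw : Exc w) {T : Set (Fin N × Fin N)} {i : Fin N} {s : Bool} :
    Dm w T i s ↔ (pe hw).DT (fun i => ed hw i ∈ T) i s := ⟨fun ⟨_, h⟩ => h, fun h => ⟨hw, h⟩⟩

theorem dm_spec (hx : x ∈ Omega k τ) (j : Fin k) : (pe hx.1).Dimer (Dm x.1 (x.2 j)) ∧
    ∀ i, ed hx.1 i ∈ x.2 j ↔ Dm x.1 (x.2 j) i true ∨ Dm x.1 (x.2 j) (mate hx.1 i) true := by
  have h := ((tree_iff hx.1 (hx.2.2 j).1).1 (hx.2.2 j)).dimer
  rwa [show Dm x.1 (x.2 j) = (pe hx.1).DT fun i => ed hx.1 i ∈ x.2 j from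
    funext fun _ => funext fun _ => propext (dm_iff hx.1)]

theorem crossed_dm (hx : x ∈ Omega k τ) (j : Fin k) (i : Fin N) :
    Crossed x.1 (x.2 j) i ↔ Dm x.1 (x.2 j) i (!τ i) := by
  rw [crossed_iff hx.1 (hx.2.2 j).1, dm_iff hx.1, hx.2.1]

theorem G_eq_iff (hx : x ∈ Omega k τ) (hy : y ∈ Omega k τ) : G x = G y ↔
    ∀ j i, Dm x.1 (x.2 j) i (!τ i) ↔ Dm y.1 (y.2 j) i (!τ i) := by
  classical
  constructor
  · intro h j i
    have h0 : 1 < N + 1 := by have := i.2; omega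
    have h1 : ∀ t ≤ N, Phi x.1 (x.2 j) t = Phi y.1 (y.2 j) t := fun t ht => by
      simpa [G, Phi, height] using congrFun (congrFun (congrFun h j) ⟨t, by omega⟩) ⟨1, h0⟩
    have h2 : ∀ t < N, height x.1 (x.2 j) t = height y.1 (y.2 j) t := fun t ht => by
      have h3 := h1 (t + 1) ht
      have h4 := h1 t ht.le
      simp only [Phi, Finset.sum_range_succ] at h3 h4
      omega
    by_cases h3 : i + 1 < N
    · have h4 := h2 _ h3
      have h5 := h2 _ i.2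
      simp only [height] at h4 h5
      rw [sum_succ (Crossed x.1 (x.2 j)), sum_succ (Crossed y.1 (y.2 j)), h5, add_right_inj,
        hx.2.1, hy.2.1] at h4
      rw [← crossed_dm hx, ← crossed_dm hy]
      split_ifs at h4 <;> simp_all
    · have h4 : ∀ {x : Word N × (Fin k → Set (Fin N × Fin N))}, x ∈ Omega k τ →
          ¬ Dm x.1 (x.2 j) i (!τ i) := fun {x} hx h => ((dm_spec hx j).1.tr _).root i h
        (((pe hx.1).hg _).trans ((pe hx.1).g1 _ i (by simp [pe, hx.2.1]))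
          ((pe hx.1).gN _ _ (by omega)))
      simp [h4 hx, h4 hy]
  · intro h
    funext j t u
    simp only [G, Phi, height, crossed_dm hx, crossed_dm hy, h, hx.2.1, hy.2.1]

/-- The data carried by the steps of one side. -/
def part (τ : Fin N → Bool) (s : Bool) (x : Word N × (Fin k → Set (Fin N × Fin N))) (i : Fin N) :
    Bool × (Fin k → Prop) :=
  if τ i = s then ((x.1 i).2, fun j => Dm x.1 (x.2 j) i s) else (false, fun _ => False)

theorem part_iff {s : Bool} : part τ s x = part τ s y ↔ ∀ i, τ i = s →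
    (x.1 i).2 = (y.1 i).2 ∧ ∀ j, Dm x.1 (x.2 j) i s ↔ Dm y.1 (y.2 j) i s := by
  rw [funext_iff]
  refine forall_congr' fun i => ?_
  by_cases h : τ i = s <;> simp [part, h, funext_iff]

theorem walk_congr {w w' : Word N} (h : ∀ i, (w i).1 = (w' i).1) {s : Bool}
    (h' : ∀ i, (w i).1 = s → (w i).2 = (w' i).2) : walk w s = walk w' s := by
  funext t
  refine Finset.sum_congr rfl fun i _ => ?_
  by_cases h1 : (w i).1 = s
  · rw [h' i h1, h i]
  · simp [h1, ← h i]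

theorem walk_part (hx : x ∈ Omega k τ) (hy : y ∈ Omega k τ) {s : Bool}
    (h : part τ s x = part τ s y) : walk x.1 s = walk y.1 s :=
  walk_congr (fun i => (hx.2.1 i).trans (hy.2.1 i).symm) fun i hi =>
    (part_iff.1 h i ((hx.2.1 i).symm.trans hi)).1

theorem part_inj (hx : x ∈ Omega k τ) (hy : y ∈ Omega k τ) (hG : G x = G y)
    (h : ∀ s, part τ s x = part τ s y) : x = y := by
  obtain ⟨w, T⟩ := x
  obtain ⟨w', T'⟩ := y
  obtain rfl : w = w' := funext fun i =>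
    Prod.ext ((hx.2.1 i).trans (hy.2.1 i).symm) (part_iff.1 (h _) i rfl).1
  have h1 : ∀ j i s, Dm w (T j) i s ↔ Dm w (T' j) i s := fun j i s => by
    by_cases h2 : τ i = s
    · exact (part_iff.1 (h s) i h2).2 j
    · rw [show s = !τ i from Bool.eq_not_iff.2 (Ne.symm h2)]
      exact (G_eq_iff hx hy).1 hG j i
  have h2 : ∀ j i, ed hx.1 i ∈ T j ↔ ed hx.1 i ∈ T' j := fun j i =>
    ((dm_spec hx j).2 i).trans ((or_congr (h1 _ _ _) (h1 _ _ _)).trans ((dm_spec hy j).2 i).symm)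
  refine Prod.ext rfl (funext fun j => Set.ext fun e => ⟨fun he => ?_, fun he => ?_⟩)
  · have := (ed_iff hx.1).1 ⟨(hx.2.2 j).1 he, .inl rfl⟩
    exact this ▸ (h2 j _).1 (this ▸ he)
  · have := (ed_iff hx.1).1 ⟨(hy.2.2 j).1 he, .inl rfl⟩
    exact this ▸ (h2 j _).2 (this ▸ he)

theorem exists_mix (o : Bool → Word N × (Fin k → Set (Fin N × Fin N))) (ho : ∀ s, o s ∈ Omega k τ)
    (hG : ∀ s t, G (o s) = G (o t)) :
    ∃ z ∈ Omega k τ, G z = G (o true) ∧ ∀ s, part τ s z = part τ s (o s) := by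
  let w : Word N := fun i => (o (τ i)).1 i
  have w1 : ∀ i, (w i).1 = τ i := fun i => (ho _).2.1 i
  have w2 : ∀ s, walk w s = walk (o s).1 s := fun s =>
    walk_congr (fun i => (w1 i).trans ((ho s).2.1 i).symm) fun i hi => by
      rw [← hi, w1]
  have hw : Exc w := fun s => w2 s ▸ (ho s).1 s
  have w3 : ∀ s, Glue w s = Glue (o s).1 s := fun s => by
    funext a b
    simp only [Glue, w2]
  have w4 : ∀ i, mate ((ho (τ i)).1) i = mate hw i := fun i => by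
    have h1 : τ (mate ((ho (τ i)).1) i) = τ i :=
      ((ho (τ i)).2.1 _).symm.trans (((pe (ho (τ i)).1).hτ i).trans ((ho (τ i)).2.1 i))
    have h2 := mate_spec (ho (τ i)).1 i
    generalize mate ((ho (τ i)).1) i = j at h1 h2
    have h3 : w j = (o (τ i)).1 j := by simp only [w, h1]
    refine (mate_iff hw).2 (h2.imp (fun h => ⟨h.1, (w1 i).trans (h1.symm.trans (w1 j).symm),
      h.2.2.1, h3 ▸ h.2.2.2.1, ?_⟩) fun h => ⟨h.1, (w1 j).trans (h1.trans (w1 i).symm),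
      h3 ▸ h.2.2.1, h.2.2.2.1, ?_⟩)
    · have := h.2.2.2.2
      rw [(ho _).2.1] at this
      rwa [w1, w3]
    · have := h.2.2.2.2
      rw [(ho _).2.1, h1] at this
      rwa [w1, w3, h1]
  let D : Fin k → Fin N → Bool → Prop := fun j i s => Dm (o s).1 ((o s).2 j) i s
  have d1 : ∀ j i s, D j i s ↔ Dm (o (τ i)).1 ((o (τ i)).2 j) i s := fun j i s => by
    by_cases h : τ i = s
    · rw [h]
    · rw [show s = !τ i from Bool.eq_not_iff.2 (Ne.symm h)]
      exact (G_eq_iff (ho _) (ho _)).1 (hG _ _) j i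
  have d2 : ∀ j, (pe hw).Dimer (D j) := fun j => by
    refine ⟨fun s => ?_, fun i => ?_⟩
    · exact (show (pe hw).g s = _ from w3 s) ▸ (dm_spec (ho s) j).1.tr s
    · refine (existsUnique_congr fun p => ?_).1 ((dm_spec (ho (τ i)) j).1.ed i)
      rw [show (pe (ho (τ i)).1).m i = (pe hw).m i from w4 i]
      refine and_congr_right fun h => ?_
      have h1 : τ p.1 = τ i := by
        rcases h with h | h <;> rw [h]
        rw [← w1, ← w1]
        exact (pe hw).hτ i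
      rw [d1, h1]
  let T : Fin k → Set (Fin N × Fin N) := fun j =>
    {e | ∃ i, e = ed hw i ∧ (D j i true ∨ D j (mate hw i) true)}
  have t1 : ∀ j, T j ⊆ Edge w := fun j e ⟨i, h, _⟩ => h ▸ ed_mem hw i
  have t2 := fun j => Pe.of_dimer (d2 j) (A := fun i => ed hw i ∈ T j) fun i => by
    refine ⟨fun ⟨i', h1, h2⟩ => ?_, fun h => ⟨i, rfl, h⟩⟩
    rcases (ed_eq hw).1 h1 with rfl | rfl
    · exact h2
    · rw [show (pe hw).m (mate hw i') = i' from (pe hw).hm i']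
      exact h2.symm
  have t3 : ∀ j i s, Dm w (T j) i s ↔ D j i s := fun j i s => (dm_iff hw).trans ((t2 j).2 i s)
  have hz : (w, T) ∈ Omega k τ := ⟨hw, w1, fun j => (tree_iff hw (t1 j)).2 (t2 j).1⟩
  refine ⟨_, hz, (G_eq_iff hz (ho _)).2 fun j i => (t3 j i _).trans
    ((G_eq_iff (ho _) (ho _)).1 (hG _ _) j i), fun s => part_iff.2 fun i hi => ⟨?_, fun j => t3 j i s⟩⟩
  rw [← hi]

theorem cond_indep (k : ℕ) (τ : Fin N → Bool) (E F : Set (ℕ → ℤ))
    (γ : Fin k → Fin (N + 1) → Fin (N + 1) → ℤ) :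
    {ω ∈ Omega k τ | G ω = γ ∧ walk ω.1 true ∈ E ∧ walk ω.1 false ∈ F}.ncard *
        {ω ∈ Omega k τ | G ω = γ}.ncard =
      {ω ∈ Omega k τ | G ω = γ ∧ walk ω.1 true ∈ E}.ncard *
        {ω ∈ Omega k τ | G ω = γ ∧ walk ω.1 false ∈ F}.ncard := by
  have := rect {ω ∈ Omega k τ | G ω = γ} (part τ true) (part τ false)
    (fun x hx y hy h1 h2 => part_inj hx.1 hy.1 (hx.2.trans hy.2.symm) fun s => by
      cases s <;> assumption)
    (fun x hx y hy => by
      obtain ⟨z, h1, h2, h3⟩ := exists_mix (τ := τ) (fun s => if s then x else y)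
        (fun s => by cases s <;> simp [hx.1, hy.1])
        (fun s t => by cases s <;> cases t <;> simp [hx.2, hy.2])
      exact ⟨z, ⟨h1, h2.trans hx.2⟩, h3 true, h3 false⟩)
    (fun ω => walk ω.1 true ∈ E) (fun ω => walk ω.1 false ∈ F)
    (fun x hx y hy h h' => walk_part hx.1 hy.1 h ▸ h')
    (fun x hx y hy h h' => walk_part hx.1 hy.1 h ▸ h')
  simpa only [Set.mem_ofPred_eq, and_assoc] using this

end Pool.Agent.Lib.MP_9c288a_pr
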