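import Mathlib

set_option autoImplicit false

/-!
Rooted orientations of a graph whose vertices are classes of corners.
-/

namespace Pool.Agent.Lib.MP_9c288a_pr

variable {N : ℕ} (g : ℕ → ℕ → Prop) (m : Fin N → Fin N)

/-- Connection through the edges of `A`. -/
def Cn (A : Fin N → Prop) : ℕ → ℕ → Prop :=
  Relation.EqvGen fun a b => g a b ∨ ∃ i : Fin N, A i ∧ a = i ∧ b = m i

/-- Removal of the edge of `i`. -/
def rm (A : Fin N → Prop) (i : Fin N) : Fin N → Prop := fun j => A j ∧ j ≠ i ∧ j ≠ m i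

/-- A transversal of the classes other than the class of `0`. -/
structure Tr (P : Fin N → Prop) : Prop where
  root : ∀ i, P i → ¬ g i 0
  ex : ∀ a, ¬ g a 0 → ∃ i, P i ∧ g a i
  uniq : ∀ i j, P i → P j → g i j → i = j

/-- Depth along the orientation. -/
inductive Lev (P : Fin N → Prop) : ℕ → ℕ → Prop
  | zero {a : ℕ} : g a 0 → Lev P 0 a
  | succ {k a : ℕ} (j : Fin N) : P j → g a j → Lev P k (m j) → Lev P (k + 1) a

/-- Descendants. -/
inductive Desc (P : Fin N → Prop) (i : Fin N) : ℕ → Prop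
  | base {a : ℕ} : g a i → Desc P i a
  | step {a : ℕ} (j : Fin N) : P j → g a j → j ≠ i → Desc P i (m j) → Desc P i a

variable {g m} {P A : Fin N → Prop} {i j : Fin N} {a b k : ℕ}

theorem Cn.of_g (h : g a b) : Cn g m A a b := .rel _ _ (.inl h)

theorem Cn.of_edge (h : A i) : Cn g m A i (m i) := .rel _ _ (.inr ⟨i, h, rfl, rfl⟩)

theorem Cn.symm' (h : Cn g m A a b) : Cn g m A b a := Relation.EqvGen.symm _ _ h

theorem Cn.trans' {c : ℕ} (h : Cn g m A a b) (h' : Cn g m A b c) : Cn g m A a c :=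
  Relation.EqvGen.trans _ _ _ h h'

theorem Cn.iff {U : ℕ → Prop} (h1 : ∀ a b, g a b → (U a ↔ U b))
    (h2 : ∀ i, A i → (U i ↔ U (m i))) (h : Cn g m A a b) : U a ↔ U b := by
  induction h with
  | rel a b h =>
    rcases h with h | ⟨i, h, rfl, rfl⟩
    exacts [h1 _ _ h, h2 _ h]
  | refl => rfl
  | symm _ _ _ h => exact h.symm
  | trans _ _ _ _ _ h h' => exact h.trans h'

theorem Cn.mono {B : Fin N → Prop} (hm : ∀ i, m (m i) = i) (hB : ∀ i, A i → B i ∨ B (m i))
    (h : Cn g m A a b) : Cn g m B a b := by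
  refine (Cn.iff (U := fun c => Cn g m B a c) (fun _ _ h => ⟨fun h' => h'.trans' (.of_g h),
    fun h' => h'.trans' (Cn.of_g h).symm'⟩) (fun i hi => ?_) h).1 (.refl _)
  have : Cn g m B i (m i) := by
    rcases hB i hi with h | h
    · exact .of_edge h
    · simpa [hm] using (Cn.of_edge (g := g) (m := m) h).symm'
  exact ⟨fun h' => h'.trans' this, fun h' => h'.trans' this.symm'⟩

theorem Lev.congr (hg : Equivalence g) (h : g a b) (hb : Lev g m P k b) : Lev g m P k a := by
  cases hb with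
  | zero h' => exact .zero (hg.trans h h')
  | succ j h1 h2 h3 => exact .succ j h1 (hg.trans h h2) h3

theorem Lev.parent (_hg : Equivalence g) (hP : Tr g P) (hi : P i) (h : Lev g m P k i) :
    ∃ l, k = l + 1 ∧ Lev g m P l (m i) := by
  cases h with
  | zero h => exact absurd h (hP.root i hi)
  | succ j h1 h2 h3 =>
    obtain rfl := hP.uniq i j hi h1 h2
    exact ⟨_, rfl, h3⟩

theorem Lev.unique (hg : Equivalence g) (hP : Tr g P) (h : Lev g m P k a) {l : ℕ}
    (h' : Lev g m P l a) : k = l := by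
  induction h generalizing l with
  | zero h =>
    cases h' with
    | zero => rfl
    | succ j h1 h2 h3 => exact absurd (hg.trans (hg.symm h2) h) (hP.root j h1)
  | succ j h1 h2 h3 ih =>
    obtain ⟨l', rfl, h4⟩ := (h'.congr hg (hg.symm h2)).parent hg hP h1
    rw [ih h4]

theorem Lev.not_both (hg : Equivalence g) (hm : ∀ i, m (m i) = i) (hP : Tr g P) (hi : P i)
    (h : Lev g m P k i) : ¬ P (m i) := fun h' => by
  obtain ⟨l, rfl, h1⟩ := h.parent hg hP hi
  obtain ⟨l', rfl, h2⟩ := h1.parent hg hP h'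
  rw [hm] at h2
  have := h.unique hg hP h2
  omega

theorem Desc.congr (hg : Equivalence g) (h : g a b) (hb : Desc g m P i b) : Desc g m P i a := by
  cases hb with
  | base h' => exact .base (hg.trans h h')
  | step j h1 h2 h3 h4 => exact .step j h1 (hg.trans h h2) h3 h4

theorem desc_iff (hg : Equivalence g) (hP : Tr g P) (hi : P i) (hj : P j) (hne : j ≠ i) :
    Desc g m P i j ↔ Desc g m P i (m j) := by
  refine ⟨fun h => ?_, fun h => .step j hj (hg.refl _) hne h⟩
  generalize hc : (j : ℕ) = c at h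
  cases h with
  | base h => exact absurd (hP.uniq j i hj hi (hc ▸ h)) hne
  | step j' h1 h2 h3 h4 =>
    obtain rfl := hP.uniq j j' hj h1 (hc ▸ h2)
    exact h4

theorem Desc.lev (hg : Equivalence g) (hP : Tr g P) (h : Desc g m P i a) (h' : Lev g m P k a) :
    ∃ l ≤ k, Lev g m P l i := by
  induction h generalizing k with
  | base h => exact ⟨k, le_rfl, h'.congr hg (hg.symm h)⟩
  | step j h1 h2 h3 h4 ih =>
    obtain ⟨l, rfl, h5⟩ := (h'.congr hg (hg.symm h2)).parent hg hP h1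
    obtain ⟨l', h6, h7⟩ := ih h5
    exact ⟨l', by omega, h7⟩

theorem desc_of_cn (hg : Equivalence g) (hm : ∀ i, m (m i) = i) (hP : Tr g P) (hi : P i)
    (hA : ∀ j, A j → P j ∨ P (m j)) (h : Cn g m (rm m A i) a b) :
    Desc g m P i a ↔ Desc g m P i b := by
  refine Cn.iff (fun _ _ h => ⟨.congr hg (hg.symm h), .congr hg h⟩) (fun j ⟨h1, h2, h3⟩ => ?_) h
  rcases hA j h1 with h4 | h4
  · exact desc_iff hg hP hi h4 h2
  · have := desc_iff (m := m) hg hP hi h4 fun h => h3 (by rw [← h, hm])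
    rw [hm] at this
    exact this.symm

/-- An oriented edge at finite depth is a bridge. -/
theorem bridge (hg : Equivalence g) (hm : ∀ i, m (m i) = i) (hP : Tr g P) (hi : P i)
    (hA : ∀ j, A j → P j ∨ P (m j)) (h : Lev g m P k i) : ¬ Cn g m (rm m A i) i (m i) := fun h' => by
  obtain ⟨l, rfl, h1⟩ := h.parent hg hP hi
  obtain ⟨l', h2, h3⟩ := ((desc_of_cn hg hm hP hi hA h').1 (.base (hg.refl _))).lev hg hP h1
  have := h.unique hg hP h3
  omega

theorem not_cn_root (hg : Equivalence g) (hm : ∀ i, m (m i) = i) (hP : Tr g P) (hi : P i)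
    (hA : ∀ j, A j → P j ∨ P (m j)) : ¬ Cn g m (rm m A i) i 0 := fun h' => by
  have h := (desc_of_cn hg hm hP hi hA h').1 (.base (hg.refl _))
  generalize hc : 0 = c at h
  cases h with
  | base h => exact hP.root i hi (hg.symm (hc ▸ h))
  | step j h1 h2 => exact hP.root j h1 (hg.symm (hc ▸ h2))

theorem Lev.cn (hA : ∀ j, P j → A j) (h : Lev g m P k a) : Cn g m A a 0 := by
  induction h with
  | zero h => exact .of_g h
  | succ j h1 h2 _ ih => exact ((Cn.of_g h2).trans' (.of_edge (hA j h1))).trans' ih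

theorem Lev.cn_rm (hA : ∀ j, P j → A j) (hi : ¬ P (m i)) (h : Lev g m P k a)
    (h' : ¬ Desc g m P i a) : Cn g m (rm m A i) a 0 := by
  induction h with
  | zero h => exact .of_g h
  | succ j h1 h2 _ ih =>
    have h3 : j ≠ i := fun h => h' (.base (h ▸ h2))
    exact ((Cn.of_g h2).trans' (.of_edge ⟨hA j h1, h3, fun h => hi (h ▸ h1)⟩)).trans'
      (ih fun h => h' (.step j h1 h2 h3 h))

theorem rm_partner (hm : ∀ i, m (m i) = i) : rm m A (m i) = rm m A i := by
  funext j
  simp only [rm, hm]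
  exact propext (by tauto)

/-- The child end of an edge is the oriented end. -/
theorem child_iff (hg : Equivalence g) (hm : ∀ i, m (m i) = i) (hP : Tr g P)
    (hA : ∀ j, A j ↔ P j ∨ P (m j)) (hL : ∀ a, ∃ k, Lev g m P k a) :
    (A i ∧ ¬ Cn g m (rm m A i) i 0) ↔ P i := by
  refine ⟨fun ⟨h1, h2⟩ => ((hA i).1 h1).resolve_right fun h3 => h2 ?_,
    fun h => ⟨(hA i).2 (.inl h), not_cn_root hg hm hP h fun j => (hA j).1⟩⟩
  obtain ⟨k, hk⟩ := hL (m i)
  obtain ⟨l, rfl, h4⟩ := hk.parent hg hP h3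
  rw [← rm_partner hm]
  rw [hm] at h4
  refine h4.cn_rm (fun j h => (hA j).2 (.inl h)) (hk.not_both hg hm hP h3) fun h5 => ?_
  obtain ⟨l', h6, h7⟩ := h5.lev hg hP h4
  have := hk.unique hg hP h7
  omega

open Classical in
/-- A circulation vanishes on bridges. -/
theorem circ_zero (hm : ∀ i, m (m i) = i) (hA : ∀ j, A j → A (m j)) {c : Fin N → ℤ}
    (h1 : ∀ j, c (m j) = -c j) (h2 : ∀ j, ¬ A j → c j = 0)
    (h3 : ∀ U : ℕ → Prop, (∀ a b, g a b → (U a ↔ U b)) → ∑ j : Fin N, (if U j then c j else 0) = 0)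
    (h : ¬ Cn g m (rm m A i) i (m i)) : c i = 0 := by
  have h4 := h3 (Cn g m (rm m A i) i) fun a b h => ⟨fun h' => h'.trans' (.of_g h),
    fun h' => h'.trans' (Cn.of_g h).symm'⟩
  have h5 : ∑ j ∈ Finset.univ.filter (fun j : Fin N => Cn g m (rm m A i) i j ∧ A j ∧ j ≠ i),
      c j = 0 := by
    refine Finset.sum_involution (fun j _ => m j) (fun j _ => by rw [h1]; ring)
      (fun j _ h6 h7 => h6 ?_) (fun j hj => ?_) fun j _ => hm j
    · have := h1 j
      rw [h7] at this
      omega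
    · simp only [Finset.mem_filter, Finset.mem_univ, true_and] at hj ⊢
      have h6 : j ≠ m i := fun h6 => h (h6 ▸ hj.1)
      exact ⟨hj.1.trans' (.of_edge ⟨hj.2.1, hj.2.2, h6⟩), hA j hj.2.1,
        fun h7 => h6 (by rw [← h7, hm])⟩
  rw [Finset.sum_filter] at h5
  rw [← Finset.add_sum_erase _ _ (Finset.mem_univ i)] at h4 h5
  rw [if_pos (show Cn g m (rm m A i) i i from .refl _)] at h4
  rw [if_neg (fun h => h.2.2 rfl), zero_add] at h5
  rw [Finset.sum_congr rfl (g := fun j : Fin N =>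
    if Cn g m (rm m A i) i j ∧ A j ∧ j ≠ i then c j else 0) fun j hj => ?_, h5] at h4
  · simpa using h4
  · have := Finset.ne_of_mem_erase hj
    by_cases h6 : A j
    · simp [h6, this]
    · simp [h2 j h6]

/-- A connected graph has a rooted orientation of finite depth. -/
theorem exists_orient (hg : Equivalence g) (hm : ∀ i, m (m i) = i) (hA : ∀ j, A j → A (m j))
    (h : ∀ a, Cn g m A a 0) : ∃ P, Tr g P ∧ (∀ i, P i → A i) ∧ ∀ a, ∃ k, Lev g m P k a := by
  classical
  have h1 : ∀ a, ∃ k, Lev g m A k a := fun a => by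
    refine (Cn.iff (U := fun a => ∃ k, Lev g m A k a) (fun _ _ h => exists_congr fun _ =>
      ⟨.congr hg (hg.symm h), .congr hg h⟩) (fun i hi => ⟨fun ⟨k, hk⟩ => ⟨k + 1, ?_⟩,
        fun ⟨k, hk⟩ => ⟨k + 1, .succ i hi (hg.refl _) hk⟩⟩) (h a)).2 ⟨0, .zero (hg.refl _)⟩
    exact .succ (m i) (hA i hi) (hg.refl _) (by rwa [hm])
  let d : ℕ → ℕ := fun a => Nat.find (h1 a)
  have d1 : ∀ a k, Lev g m A k a → d a ≤ k := fun a k h => Nat.find_min' _ h
  have d2 : ∀ a, Lev g m A (d a) a := fun a => Nat.find_spec (h1 a)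
  have d3 : ∀ a b, g a b → d a = d b := fun a b h =>
    le_antisymm (d1 _ _ ((d2 b).congr hg h)) (d1 _ _ ((d2 a).congr hg (hg.symm h)))
  let P : Fin N → Prop := fun i => A i ∧ d (m i) < d i ∧
    ∀ j : Fin N, A j → g i j → d (m j) < d j → i ≤ j
  have hP : Tr g P := by
    refine ⟨fun i hi h => ?_, fun a ha => ?_, fun i j hi hj h =>
      le_antisymm (hi.2.2 j hj.1 h hj.2.1) (hj.2.2 i hi.1 (hg.symm h) hi.2.1)⟩
    · have := d1 i 0 (.zero h)
      have := hi.2.1
      omega
    · have h2 : ∃ j : Fin N, A j ∧ g a j ∧ d (m j) < d j := by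
        have h3 := d2 a
        generalize hk : d a = k at h3
        cases h3 with
        | zero h => exact absurd h ha
        | succ j h1 h2 h3 =>
          have := d1 _ _ h3
          exact ⟨j, h1, h2, by rw [← d3 _ _ h2]; omega⟩
      obtain ⟨j, hj⟩ := h2
      obtain ⟨i, h3, h4⟩ := (Finset.univ.filter fun j : Fin N =>
        A j ∧ g a j ∧ d (m j) < d j).exists_min_image id ⟨j, by simpa using hj⟩
      simp only [Finset.mem_filter, Finset.mem_univ, true_and, id] at h3 h4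
      exact ⟨i, ⟨h3.1, h3.2.2, fun j h5 h6 h7 => h4 j ⟨h5, hg.trans h3.2.1 h6, h7⟩⟩, h3.2.1⟩
  refine ⟨P, hP, fun i hi => hi.1, fun a => ?_⟩
  induction hk : d a using Nat.strong_induction_on generalizing a with
  | _ k ih =>
    by_cases ha : g a 0
    · exact ⟨0, .zero ha⟩
    · obtain ⟨i, h2, h3⟩ := hP.ex a ha
      obtain ⟨l, hl⟩ := ih (d (m i)) (by rw [← hk, d3 _ _ h3]; exact h2.2.1) _ rfl
      exact ⟨l + 1, .succ i h2 h3 hl⟩

theorem Tr.ncard_eq (hg : Equivalence g) {Q : Fin N → Prop} (hP : Tr g P) (hQ : Tr g Q) :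
    {i | P i}.ncard = {i | Q i}.ncard := by
  have key : ∀ {P Q : Fin N → Prop}, Tr g P → Tr g Q → {i | P i}.ncard ≤ {i | Q i}.ncard :=
    fun {P Q} hP hQ => by
      choose! f hf using fun i : Fin N => fun h : P i => hQ.ex i (hP.root i h)
      refine Set.ncard_le_ncard_of_injOn f (fun i hi => (hf i hi).1) fun i hi j hj h => ?_
      exact hP.uniq i j hi hj (hg.trans (hf i hi).2 (hg.symm (h ▸ (hf j hj).2)))
  exact le_antisymm (key hP hQ) (key hQ hP)

end Pool.Agent.Lib.MP_9c288a_pr
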