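import Pool.Agent.Lib.MP_9c288a_pr.Side

set_option autoImplicit false

/-!
Temperley's correspondence for a map given by a Peano curve.
-/

namespace Pool.Agent.Lib.MP_9c288a_pr

/-- A map read along the Peano curve of a spanning tree. -/
structure Pe (N : ℕ) where
  /-- the side of a step -/
  τ : Fin N → Bool
  /-- the other step of the same edge -/
  m : Fin N → Fin N
  /-- the two gluing relations -/
  g : Bool → ℕ → ℕ → Prop
  /-- closing steps -/
  dn : Fin N → Prop
  hg : ∀ s, Equivalence (g s)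
  hm : ∀ i, m (m i) = i
  hτ : ∀ i, τ (m i) = τ i
  g1 : ∀ s i, τ i ≠ s → g s i (i + 1)
  g2 : ∀ i, g (τ i) (i + 1) (m i)
  gN : ∀ s a, N ≤ a → g s a 0
  hdn : ∀ i, dn (m i) ↔ ¬ dn i
  tr : ∀ s, Tr (g s) fun i => dn i ∧ τ i = s

namespace Pe

variable {N : ℕ} (X : Pe N)

/-- Dimer covers. -/
structure Dimer (D : Fin N → Bool → Prop) : Prop where
  tr : ∀ s, Tr (X.g s) fun i => D i s
  ed : ∀ i, ∃! p : Fin N × Bool, (p.1 = i ∨ p.1 = X.m i) ∧ D p.1 p.2

/-- Spanning trees. -/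
structure Tree (A : Fin N → Prop) : Prop where
  cl : ∀ i, A i → A (X.m i)
  cn : ∀ a, Cn (X.g true) X.m A a 0
  br : ∀ i, A i → ¬ Cn (X.g true) X.m (rm X.m A i) i (X.m i)

/-- The edge set on a side. -/
def side (A : Fin N → Prop) (s : Bool) : Fin N → Prop := fun i => A i ↔ s = true

/-- The dimers of a tree. -/
def DT (A : Fin N → Prop) (i : Fin N) (s : Bool) : Prop :=
  side A s i ∧ ¬ Cn (X.g s) X.m (rm X.m (side A s) i) i 0

open Classical in
theorem net (s : Bool) {u : ℕ → ℤ} (hu : ∀ a b, X.g (!s) a b → u a = u b) (U : ℕ → Prop)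
    (hU : ∀ a b, X.g s a b → (U a ↔ U b)) :
    ∑ j : Fin N, (if U j then u j - u (X.m j) else 0) = 0 := by
  let F : ℕ → ℤ := fun a => if U a then u a else 0
  let π : Fin N → Fin N := fun i => if X.τ i = s then X.m i else i
  have hπ : Function.Involutive π := fun i => by
    by_cases h : X.τ i = s <;> simp [π, h, X.hτ, X.hm]
  have h1 : ∑ j : Fin N, F j = ∑ j : Fin N, F (j + 1) := by
    rw [Fin.sum_univ_eq_sum_range F, Fin.sum_univ_eq_sum_range fun j => F (j + 1)]
    have h2 := (Finset.sum_range_succ F N).symm.trans (Finset.sum_range_succ' F N)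
    have h3 : F N = F 0 := by
      simp only [F, hU _ _ (X.gN s N le_rfl), hu _ _ (X.gN _ N le_rfl)]
    omega
  have h2 : ∑ j : Fin N, F (j + 1) = ∑ j : Fin N, (if U j then u (X.m j) else 0) := by
    rw [← Equiv.sum_comp hπ.toPerm]
    refine Finset.sum_congr rfl fun j _ => ?_
    simp only [Function.Involutive.coe_toPerm, F, π]
    by_cases h : X.τ j = s
    · have h3 := X.g2 (X.m j)
      rw [X.hτ, X.hm, h] at h3
      rw [if_pos h, hU _ _ h3, ← hu _ _ (X.g1 (!s) (X.m j) (by simp [X.hτ, h]))]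
    · have h3 := X.g2 j
      rw [show X.τ j = !s from Bool.eq_not_iff.2 h] at h3
      rw [if_neg h, ← hU _ _ (X.g1 s j h), hu _ _ h3]
  rw [Finset.sum_congr rfl (g := fun j : Fin N => F j - if U j then u (X.m j) else 0)
    fun j _ => by simp only [F]; split_ifs <;> simp, Finset.sum_sub_distrib, h1, h2, sub_self]

/-- A set of corners that no edge outside `A` leaves is not left by a bridge of `A`. -/
theorem cross (s : Bool) {A : Fin N → Prop} (hA : ∀ j, A j → A (X.m j)) {V : ℕ → Prop}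
    (h1 : ∀ a b, X.g (!s) a b → (V a ↔ V b)) (h2 : ∀ j, ¬ A j → (V j ↔ V (X.m j))) {i : Fin N}
    (h : ¬ Cn (X.g s) X.m (rm X.m A i) i (X.m i)) : V i ↔ V (X.m i) := by
  classical
  let u : ℕ → ℤ := fun a => if V a then 1 else 0
  have := circ_zero (c := fun j => u j - u (X.m j)) X.hm hA (fun j => by rw [X.hm]; ring)
    (fun j hj => by simp only [u, h2 j hj, sub_self])
    (fun U hU => by convert X.net s (u := u) (fun a b h => by simp only [u, h1 a b h]) U hU) h
  simp only [u] at this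
  split_ifs at this <;> simp_all

variable {X} {D : Fin N → Bool → Prop} {A : Fin N → Prop}

theorem Dimer.excl (h : X.Dimer D) (i : Fin N) (s : Bool) :
    (D i (!s) ∨ D (X.m i) (!s)) ↔ ¬ (D i s ∨ D (X.m i) s) := by
  obtain ⟨⟨j, t⟩, ⟨h1, h2⟩, h3⟩ := h.ed i
  constructor
  · intro h4 h5
    have h6 : ∀ r, D i r ∨ D (X.m i) r → r = t := fun r hr => by
      rcases hr with hr | hr
      · exact congrArg Prod.snd (h3 (i, r) ⟨.inl rfl, hr⟩)
      · exact congrArg Prod.snd (h3 (X.m i, r) ⟨.inr rfl, hr⟩)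
    have := (h6 _ h4).trans (h6 _ h5).symm
    simp at this
  · intro h4
    have h5 : D i t ∨ D (X.m i) t := by
      rcases (h1 : j = i ∨ j = X.m i) with rfl | rfl
      exacts [.inl h2, .inr h2]
    by_cases h6 : t = s
    · exact absurd (h6 ▸ h5) h4
    · rwa [← show t = !s from Bool.eq_not_iff.2 h6]

theorem Dimer.lev (h : X.Dimer D) (a : ℕ) : ∀ s, ∃ k, Lev (X.g s) X.m (D · s) k a := by
  have e : ∀ s (i : Fin N), D i s ∨ D (X.m i) s → ((∃ k, Lev (X.g s) X.m (D · s) k i) ↔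
      ∃ k, Lev (X.g s) X.m (D · s) k (X.m i)) := by
    have e1 : ∀ s (i : Fin N), D i s → ((∃ k, Lev (X.g s) X.m (D · s) k i) ↔
        ∃ k, Lev (X.g s) X.m (D · s) k (X.m i)) := fun s i hi =>
      ⟨fun ⟨k, hk⟩ => (hk.parent (X.hg s) (h.tr s) hi).imp fun _ h => h.2,
        fun ⟨k, hk⟩ => ⟨k + 1, .succ i hi ((X.hg s).refl _) hk⟩⟩
    intro s i hi
    rcases hi with hi | hi
    · exact e1 s i hi
    · simpa [X.hm] using (e1 s _ hi).symm
  induction a with
  | zero => exact fun s => ⟨0, .zero ((X.hg s).refl _)⟩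
  | succ a ih =>
    intro s
    by_cases ha : N ≤ a
    · exact ⟨0, .zero (X.gN s _ (by omega))⟩
    obtain ⟨i, rfl⟩ : ∃ i : Fin N, (i : ℕ) = a := ⟨⟨a, by omega⟩, rfl⟩
    by_cases hs : X.τ i = s
    swap
    · exact (ih s).imp fun k hk => hk.congr (X.hg s) ((X.hg s).symm (X.g1 s i hs))
    suffices h1 : ∃ k, Lev (X.g s) X.m (D · s) k (X.m i) from
      h1.imp fun k hk => hk.congr (X.hg s) (hs ▸ X.g2 i)
    by_cases h2 : D i s ∨ D (X.m i) s
    · exact (e s i h2).1 (ih s)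
    have h3 := (h.excl i s).2 h2
    refine (X.cross (!s) (A := fun j => D j (!s) ∨ D (X.m j) (!s))
      (V := fun a => ∃ k, Lev (X.g s) X.m (D · s) k a) (fun j hj => by rw [X.hm]; exact hj.symm)
      (fun a b h => exists_congr fun _ => ⟨.congr (X.hg s) ((X.hg s).symm (by simpa using h)),
        .congr (X.hg s) (by simpa using h)⟩)
      (fun j hj => e s j (by_contra fun h4 => hj ((h.excl j s).2 h4))) ?_).1 (ih s)
    rcases h3 with h3 | h3
    · obtain ⟨k, hk⟩ := ih (!s)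
      exact bridge (X.hg _) X.hm (h.tr _) h3 (fun _ h => h) hk
    · obtain ⟨k, hk⟩ := (e _ i (.inr h3)).1 (ih (!s))
      have := bridge (A := fun j => D j (!s) ∨ D (X.m j) (!s)) (X.hg _) X.hm (h.tr _) h3
        (fun _ h => h) hk
      rw [rm_partner X.hm, X.hm] at this
      exact fun h => this h.symm'

theorem of_dimer (h : X.Dimer D) (hA : ∀ i, A i ↔ D i true ∨ D (X.m i) true) :
    X.Tree A ∧ ∀ i s, X.DT A i s ↔ D i s := by
  have hs : ∀ s i, side A s i ↔ D i s ∨ D (X.m i) s := fun s i => by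
    cases s
    · simpa [side, hA] using (h.excl i true).symm
    · simp [side, hA]
  refine ⟨⟨fun i hi => ?_, fun a => ?_, fun i hi => ?_⟩, fun i s =>
    child_iff (X.hg s) X.hm (h.tr s) (hs s) fun a => h.lev a s⟩
  · rw [hA, X.hm]
    exact ((hA i).1 hi).symm
  · obtain ⟨k, hk⟩ := h.lev a true
    exact hk.cn fun j hj => (hA j).2 (.inl hj)
  · rcases (hA i).1 hi with h3 | h3
    · obtain ⟨k, hk⟩ := h.lev i true
      exact bridge (X.hg _) X.hm (h.tr _) h3 (fun j => (hA j).1) hk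
    · obtain ⟨k, hk⟩ := h.lev (X.m i) true
      have := bridge (X.hg _) X.hm (h.tr _) h3 (fun j => (hA j).1) hk
      rw [rm_partner X.hm, X.hm] at this
      exact fun h => this h.symm'

theorem Tree.dual (h : X.Tree A) (a : ℕ) : Cn (X.g false) X.m (fun i => ¬ A i) a 0 := by
  induction a with
  | zero => exact .refl _
  | succ a ih =>
    by_cases ha : N ≤ a
    · exact .of_g (X.gN _ _ (by omega))
    obtain ⟨i, rfl⟩ : ∃ i : Fin N, (i : ℕ) = a := ⟨⟨a, by omega⟩, rfl⟩
    by_cases hs : X.τ i = false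
    swap
    · exact (Cn.of_g (X.g1 _ i hs)).symm'.trans' ih
    refine (Cn.of_g (hs ▸ X.g2 i)).trans' ?_
    by_cases h1 : A i
    · exact (X.cross true h.cl (V := fun a => Cn (X.g false) X.m (fun i => ¬ A i) a 0)
        (fun a b h => ⟨(Cn.of_g h).symm'.trans', (Cn.of_g h).trans'⟩)
        (fun j hj => ⟨(Cn.of_edge hj).symm'.trans', (Cn.of_edge hj).trans'⟩) (h.br i h1)).1 ih
    · exact (Cn.of_edge h1).symm'.trans' ih

theorem Tree.exists_dimer (h : X.Tree A) :
    ∃ D, X.Dimer D ∧ ∀ i, A i ↔ D i true ∨ D (X.m i) true := by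
  classical
  have hc : ∀ i, A (X.m i) → A i := fun i hi => X.hm i ▸ h.cl _ hi
  obtain ⟨P, p1, p2, p3⟩ := exists_orient (X.hg true) X.hm h.cl h.cn
  obtain ⟨Q, q1, q2, q3⟩ := exists_orient (X.hg false) X.hm (fun j hj h' => hj (hc j h')) h.dual
  let D : Fin N → Bool → Prop := fun i s => if s then P i else Q i
  have d1 : ∀ s, Tr (X.g s) fun i => D i s := fun s => by cases s <;> simpa [D]
  have d2 : ∀ i s, D i s → (A i ↔ s = true) := fun i s => by
    cases s
    · simpa [D] using q2 i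
    · simpa [D] using p2 i
  have d3 : ∀ i s, D i s → ¬ D (X.m i) s := fun i s => by
    cases s
    · obtain ⟨k, hk⟩ := q3 i
      simpa [D] using fun hi => hk.not_both (X.hg _) X.hm q1 hi
    · obtain ⟨k, hk⟩ := p3 i
      simpa [D] using fun hi => hk.not_both (X.hg _) X.hm p1 hi
  have d4 : ∀ i j s t, D i s → D j t → j = i ∨ j = X.m i → (j, t) = (i, s) := by
    intro i j s t hi hj hij
    have h1 : A j ↔ A i := by
      rcases hij with rfl | rfl
      exacts [Iff.rfl, ⟨hc i, h.cl i⟩]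
    obtain rfl : t = s := by
      rw [Bool.eq_iff_iff, ← d2 i s hi, ← d2 j t hj, h1]
    rcases hij with rfl | rfl
    · rfl
    · exact absurd hj (d3 i t hi)
  let f : Fin N → Fin N := fun i => if X.dn i then i else X.m i
  have f1 : ∀ i, X.dn (f i) := fun i => by
    by_cases h : X.dn i <;> simp [f, h, X.hdn]
  have f2 : ∀ i, f i = i ∨ f i = X.m i := fun i => by
    by_cases h : X.dn i <;> simp [f, h]
  have f3 : ∀ i j, f i = f j → j = i ∨ j = X.m i := fun i j h => by
    rcases f2 i with h1 | h1 <;> rcases f2 j with h2 | h2 <;> rw [h1, h2] at h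
    · exact .inl h.symm
    · exact .inr (by rw [h, X.hm])
    · exact .inr h.symm
    · exact .inl (by rw [← X.hm j, ← h, X.hm])
  have c1 : {i | X.dn i}.ncard ≤ {i | P i ∨ Q i}.ncard := by
    have e1 : {i | X.dn i} = {i | X.dn i ∧ X.τ i = true} ∪ {i | X.dn i ∧ X.τ i = false} := by
      ext i
      cases h : X.τ i <;> simp [h]
    have e2 : {i | P i ∨ Q i} = {i | P i} ∪ {i | Q i} := rfl
    rw [e1, e2, Set.ncard_union_eq (s := {i | P i}) (t := {i | Q i})
      (Set.disjoint_left.2 fun i a b => q2 i b (p2 i a)),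
      p1.ncard_eq (X.hg _) (X.tr _), q1.ncard_eq (X.hg _) (X.tr _)]
    exact Set.ncard_union_le _ _
  have pq : ∀ i, P i ∨ Q i ↔ ∃ s, D i s := fun i => by simp [D, or_comm]
  have c3 := Set.surj_on_of_inj_on_of_ncard_le (s := {i | P i ∨ Q i}) (t := {i | X.dn i})
    (fun i _ => f i) (fun i _ => f1 i) (fun i j hi hj hij => by
      obtain ⟨s, hs⟩ := (pq i).1 hi
      obtain ⟨t, ht⟩ := (pq j).1 hj
      exact (congrArg Prod.fst (d4 i j s t hs ht (f3 i j hij))).symm) c1
  have d5 : ∀ i, ∃ j s, (j = i ∨ j = X.m i) ∧ D j s := fun i => by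
    obtain ⟨j, h1, h2⟩ := c3 (f i) (f1 i)
    obtain ⟨s, hs⟩ := (pq j).1 h1
    exact ⟨j, s, f3 i j h2, hs⟩
  refine ⟨D, ⟨d1, fun i => ?_⟩, fun i => ⟨fun hi => ?_, fun hi => ?_⟩⟩
  · obtain ⟨j, s, h1, h2⟩ := d5 i
    refine ⟨(j, s), ⟨h1, h2⟩, fun ⟨j', t⟩ ⟨h3, h4⟩ => d4 j j' s t h2 h4 ?_⟩
    rcases h1 with rfl | rfl
    · exact h3
    · rw [X.hm]
      exact h3.symm
  · obtain ⟨j, s, h1, h2⟩ := d5 i
    have h3 : A j := by
      rcases h1 with rfl | rfl
      exacts [hi, h.cl i hi]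
    obtain rfl := (d2 j s h2).1 h3
    rcases h1 with rfl | rfl
    exacts [.inl h2, .inr h2]
  · rcases hi with hi | hi
    · exact (d2 _ _ hi).2 rfl
    · exact hc i ((d2 _ _ hi).2 rfl)

theorem Tree.dimer (h : X.Tree A) :
    X.Dimer (X.DT A) ∧ ∀ i, A i ↔ X.DT A i true ∨ X.DT A (X.m i) true := by
  obtain ⟨D, h1, h2⟩ := h.exists_dimer
  obtain rfl : X.DT A = D := by
    funext i s
    exact propext ((of_dimer h1 h2).2 i s)
  exact ⟨h1, h2⟩

end Pe

end Pool.Agent.Lib.MP_9c288a_pr
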