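import Pool.Agent.Lib.MP_9c288a_pr.Defs
import Pool.Agent.Lib.MP_9c288a_pr.Two

set_option autoImplicit false

/-!
The map of a contour word.
-/

namespace Pool.Agent.Lib.MP_9c288a_pr

variable {N : ℕ} {w : Word N} {s : Bool} {a b : ℕ} {i j : Fin N}

theorem sum_succ (P : Fin N → Prop) [DecidablePred P] (c : Fin N → ℤ) (i : Fin N) :
    ∑ j : Fin N, (if (j : ℕ) < i + 1 ∧ P j then c j else 0) =
      ∑ j : Fin N, (if (j : ℕ) < i ∧ P j then c j else 0) + if P i then c i else 0 := by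
  rw [← sub_eq_iff_eq_add', ← Finset.sum_sub_distrib, Finset.sum_eq_single i]
  · simp
  · intro j _ hj
    have : (j : ℕ) < i + 1 ↔ (j : ℕ) < i := by
      have := Fin.val_ne_of_ne hj
      omega
    simp only [this, sub_self]
  · simp

theorem walk_succ (w : Word N) (s : Bool) (i : Fin N) : walk w s (i + 1) = walk w s i +
    if (w i).1 = s then (if (w i).2 = true then 1 else -1) else 0 :=
  sum_succ (fun j => (w j).1 = s) _ i

theorem walk_zero (w : Word N) (s : Bool) : walk w s 0 = 0 := by simp [walk]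

theorem walk_ge (h : N ≤ a) : walk w s a = walk w s N :=
  Finset.sum_congr rfl fun i _ => by simp [lt_of_lt_of_le i.2 h]

theorem walk_up (h : (w i).1 = s) (h' : (w i).2 = true) : walk w s (i + 1) = walk w s i + 1 := by
  simp [walk_succ, h, h']

theorem walk_dn (h : (w i).1 = s) (h' : (w i).2 = false) : walk w s (i + 1) = walk w s i - 1 := by
  simp [walk_succ, h, h', sub_eq_add_neg]

theorem glue_equiv (w : Word N) (s : Bool) : Equivalence (Glue w s) where
  refl a := ⟨rfl, fun t h1 h2 => by rw [show t = a by omega]⟩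
  symm h := ⟨h.1.symm, fun t h1 h2 => h.1 ▸ h.2 t (by omega) (by omega)⟩
  trans {a b c} h h' := ⟨h.1.trans h'.1, fun t h1 h2 => by
    by_cases h3 : min a b ≤ t ∧ t ≤ max a b
    · exact h.2 t h3.1 h3.2
    · exact h.1 ▸ h'.2 t (by omega) (by omega)⟩

theorem glue_root (hw : Exc w) (h : walk w s a = 0) : Glue w s a 0 :=
  ⟨h.trans (walk_zero w s).symm, fun t _ _ => h ▸ (hw s).1 t⟩

theorem ex_dn (hw : Exc w) (h : 0 < walk w s a) :
    ∃ j : Fin N, (w j).1 = s ∧ (w j).2 = false ∧ a ≤ j ∧ Glue w s a j := by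
  classical
  have h1 : ∃ t, a ≤ t ∧ walk w s (t + 1) < walk w s a :=
    ⟨max a N, by omega, by rwa [walk_ge (by omega), (hw s).2]⟩
  have h2 := Nat.find_spec h1
  have h3 : ∀ u, a ≤ u → u ≤ Nat.find h1 → walk w s a ≤ walk w s u := fun u h4 h5 => by
    rcases h4.eq_or_lt with rfl | h4
    · rfl
    · obtain ⟨v, rfl⟩ : ∃ v, u = v + 1 := ⟨u - 1, by omega⟩
      exact not_lt.1 fun h6 => Nat.find_min h1 (show v < _ by omega) ⟨by omega, h6⟩
  generalize Nat.find h1 = t at h2 h3
  have h4 := h3 t h2.1 le_rfl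
  have h5 : t < N := by
    by_contra h5
    rw [walk_ge (a := t + 1) (by omega)] at h2
    rw [walk_ge (a := t) (by omega)] at h4
    omega
  have h6 : walk w s (t + 1) = walk w s t + _ := walk_succ w s ⟨t, h5⟩
  have h7 : (w ⟨t, h5⟩).1 = s ∧ ¬ (w ⟨t, h5⟩).2 = true ∧ walk w s a = walk w s t := by
    split_ifs at h6 with a1 a2
    · omega
    · exact ⟨a1, a2, by omega⟩
    · omega
  exact ⟨⟨t, h5⟩, h7.1, by simpa using h7.2.1, h2.1, h7.2.2, fun u h7 h8 =>
    h3 u (by simp at h7; omega) (by simp at h8; omega)⟩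

theorem ex_up (h : 0 < walk w s b) :
    ∃ i : Fin N, (w i).1 = s ∧ (w i).2 = true ∧ i + 1 ≤ b ∧ Glue w s (i + 1) b := by
  have h0 : 0 < b := Nat.pos_of_ne_zero fun h' => by simp [h', walk_zero] at h
  obtain ⟨t, h1, h2⟩ := ((Finset.range b).filter fun t => walk w s t < walk w s b).exists_max_image
    id ⟨0, by simpa [walk_zero, h0] using h⟩
  simp only [Finset.mem_filter, Finset.mem_range, id] at h1 h2
  have h3 : ∀ u, t < u → u ≤ b → walk w s b ≤ walk w s u := fun u h4 h5 => by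
    rcases h5.eq_or_lt with rfl | h5
    · rfl
    · exact not_lt.1 fun h6 => absurd (h2 u ⟨h5, h6⟩) (by omega)
  have h4 := h3 (t + 1) (by omega) (by omega)
  have h5 : t < N := by
    by_contra h5
    rw [walk_ge (a := t + 1) (by omega)] at h4
    rw [walk_ge (a := t) (by omega)] at h1
    omega
  have h6 := walk_succ w s ⟨t, h5⟩
  have h7 : (w ⟨t, h5⟩).1 = s ∧ (w ⟨t, h5⟩).2 = true ∧ walk w s (t + 1) = walk w s b := by
    refine ⟨?_, ?_, ?_⟩ <;> split_ifs at h6 <;> simp_all <;> omega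
  exact ⟨⟨t, h5⟩, h7.1, h7.2.1, h1.1, h7.2.2, fun u h8 h9 => h7.2.2 ▸ h3 u (by simp at h8; omega)
    (by simp at h9; omega)⟩

theorem uniq_dn (h1 : (w i).1 = s) (h2 : (w i).2 = false) (h3 : (w j).1 = s) (h4 : (w j).2 = false)
    (h : Glue w s i j) : i = j := by
  have h5 := walk_dn h1 h2
  have h6 := walk_dn h3 h4
  have h7 := h.1
  rcases lt_trichotomy (i : ℕ) j with h8 | h8 | h8
  · have := h.2 (i + 1) (by omega) (by omega)
    omega
  · exact Fin.ext h8
  · have := h.2 (j + 1) (by omega) (by omega)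
    omega

theorem uniq_up (h1 : (w i).1 = s) (h2 : (w i).2 = true) (h3 : (w j).1 = s) (h4 : (w j).2 = true)
    (h : Glue w s (i + 1) (j + 1)) : i = j := by
  have h5 := walk_up h1 h2
  have h6 := walk_up h3 h4
  have h7 := h.1
  rcases lt_trichotomy (i : ℕ) j with h8 | h8 | h8
  · have := h.2 j (by omega) (by omega)
    omega
  · exact Fin.ext h8
  · have := h.2 i (by omega) (by omega)
    omega

theorem ex_partner (hw : Exc w) (i : Fin N) : ∃! j, (i, j) ∈ Edge w ∨ (j, i) ∈ Edge w := by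
  have e := glue_equiv w (w i).1
  cases h : (w i).2
  · have h1 := walk_dn rfl h
    have h2 := (hw (w i).1).1 (i + 1)
    obtain ⟨j, h3, h4, h5, h6⟩ := ex_up (w := w) (s := (w i).1) (b := i) (by omega)
    refine ⟨j, .inr ⟨h5, h3, h4, h, h3 ▸ h6⟩, fun j' hj => ?_⟩
    rcases hj with ⟨-, -, h7, -⟩ | ⟨-, h7, h8, -, h9⟩
    · simp [h] at h7
    · exact uniq_up h7 h8 h3 h4 (e.trans (h7 ▸ h9) (e.symm h6))
  · have h1 := walk_up rfl h
    have h2 := (hw (w i).1).1 i
    obtain ⟨j, h3, h4, h5, h6⟩ := ex_dn hw (s := (w i).1) (a := i + 1) (by omega)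
    refine ⟨j, .inl ⟨h5, h3.symm, h, h4, h6⟩, fun j' hj => ?_⟩
    rcases hj with ⟨-, h7, -, h8, h9⟩ | ⟨-, -, -, h7, -⟩
    · exact uniq_dn h7.symm h8 h3 h4 (e.trans (e.symm h9) h6)
    · simp [h] at h7

/-- The other step of the edge of a step. -/
noncomputable def mate (hw : Exc w) (i : Fin N) : Fin N := (ex_partner hw i).exists.choose

theorem mate_iff (hw : Exc w) : j = mate hw i ↔ (i, j) ∈ Edge w ∨ (j, i) ∈ Edge w :=
  ⟨fun h => h ▸ (ex_partner hw i).exists.choose_spec,
    fun h => (ex_partner hw i).unique h (ex_partner hw i).exists.choose_spec⟩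

theorem mate_spec (hw : Exc w) (i : Fin N) : (i, mate hw i) ∈ Edge w ∨ (mate hw i, i) ∈ Edge w :=
  (mate_iff hw).1 rfl

/-- The Peano data of a word. -/
noncomputable def pe (hw : Exc w) : Pe N where
  τ i := (w i).1
  m := mate hw
  g := Glue w
  dn i := (w i).2 = false
  hg := glue_equiv w
  hm i := ((mate_iff hw).2 (mate_spec hw i).symm).symm
  hτ i := by
    rcases mate_spec hw i with h | h
    exacts [h.2.1.symm, h.2.1]
  g1 s i h := by
    have h1 : walk w s (i + 1) = walk w s i := by simp [walk_succ, h]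
    refine ⟨h1.symm, fun t h2 h3 => ?_⟩
    rcases (show t = i ∨ t = i + 1 by omega) with rfl | rfl <;> omega
  g2 i := by
    rcases mate_spec hw i with h | ⟨h1, h2, h3, h4, h5, h6⟩
    · exact h.2.2.2.2
    · generalize mate hw i = j at *
      simp only at h1 h2 h3 h4 h5 h6
      rw [h2] at h5 h6
      have h7 := walk_up h2 h3
      have h8 := walk_dn rfl h4
      have h9 : (j : ℕ) < i := h1
      refine ⟨by omega, fun t a1 a2 => ?_⟩
      rcases (show t = j ∨ t = i + 1 ∨ (j + 1 ≤ t ∧ t ≤ i) by omega) with rfl | rfl | a3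
      · omega
      · omega
      · have := h6 t (by omega) (by omega)
        omega
  gN s a h := glue_root hw ((walk_ge h).trans (hw s).2)
  hdn i := by
    rcases mate_spec hw i with h | h
    · simp [show (w i).2 = true from h.2.2.1, show (w (mate hw i)).2 = false from h.2.2.2.1]
    · simp [show (w i).2 = false from h.2.2.2.1, show (w (mate hw i)).2 = true from h.2.2.1]
  tr s := by
    refine ⟨fun i hi h => ?_, fun a ha => ?_, fun i j hi hj => uniq_dn hi.2 hi.1 hj.2 hj.1⟩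
    · have h1 := walk_dn hi.2 hi.1
      have h2 := (hw s).1 (i + 1)
      have h3 := h.1
      rw [walk_zero] at h3
      omega
    · obtain ⟨j, h1, h2, -, h3⟩ := ex_dn hw
        (lt_of_le_of_ne ((hw s).1 a) fun h => ha (glue_root hw h.symm))
      exact ⟨j, ⟨h2, h1⟩, h3⟩

/-- The edge of a step. -/
noncomputable def ed (hw : Exc w) (i : Fin N) : Fin N × Fin N :=
  if (w i).2 = true then (i, mate hw i) else (mate hw i, i)

theorem ed_iff (hw : Exc w) {e : Fin N × Fin N} :
    (e ∈ Edge w ∧ (e.1 = i ∨ e.2 = i)) ↔ e = ed hw i := by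
  constructor
  · rintro ⟨h, rfl | rfl⟩
    · rw [ed, if_pos h.2.2.1, ← (mate_iff hw).2 (.inl h)]
    · rw [ed, if_neg (by simp [h.2.2.2.1]), ← (mate_iff hw).2 (.inr h)]
  · rintro rfl
    rcases mate_spec hw i with h | h
    · rw [ed, if_pos h.2.2.1]
      exact ⟨h, .inl rfl⟩
    · rw [ed, if_neg (by simp [show (w i).2 = false from h.2.2.2.1])]
      exact ⟨h, .inr rfl⟩

theorem ed_mem (hw : Exc w) (i : Fin N) : ed hw i ∈ Edge w := ((ed_iff hw).2 rfl).1

theorem ed_cases (hw : Exc w) (i : Fin N) :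
    ed hw i = (i, mate hw i) ∨ ed hw i = (mate hw i, i) := by
  unfold ed
  split_ifs <;> simp

theorem ed_eq (hw : Exc w) : ed hw j = ed hw i ↔ j = i ∨ j = mate hw i := by
  rw [eq_comm, ← ed_iff hw, and_iff_right (ed_mem hw i)]
  rcases ed_cases hw i with h | h <;> rw [h] <;> simp only [eq_comm (a := j), or_comm]

theorem conn_iff (hw : Exc w) {T : Set (Fin N × Fin N)} (hT : T ⊆ Edge w) {A : Fin N → Prop}
    (hA : ∀ i, A i ↔ ed hw i ∈ T) : Conn w s T a b ↔ Cn (Glue w s) (mate hw) A a b := by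
  constructor
  · refine Relation.EqvGen.mono (fun a b (h : _ ∨ _) => Or.imp_right ?_ h) a b
    rintro ⟨e, he, rfl, rfl⟩
    exact ⟨e.1, (hA _).2 ((ed_iff hw).1 ⟨hT he, .inl rfl⟩ ▸ he), rfl,
      congrArg _ ((mate_iff hw).2 (.inl (hT he)))⟩
  · intro h
    refine (Cn.iff (U := fun c => Conn w s T a c) (fun _ _ h => ?_) (fun i hi => ?_) h).1 (.refl _)
    · exact ⟨fun h' => .trans _ _ _ h' (.rel _ _ (.inl h)),
        fun h' => .trans _ _ _ h' (.symm _ _ (.rel _ _ (.inl h)))⟩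
    · have : Conn w s T i (mate hw i) := by
        rcases ed_cases hw i with h | h
        · exact .rel _ _ (.inr ⟨_, (hA i).1 hi, by rw [h], by rw [h]⟩)
        · exact .symm _ _ (.rel _ _ (.inr ⟨_, (hA i).1 hi, by rw [h], by rw [h]⟩))
      exact ⟨fun h' => .trans _ _ _ h' this, fun h' => .trans _ _ _ h' (.symm _ _ this)⟩

theorem conn_rm (hw : Exc w) {T : Set (Fin N × Fin N)} (hT : T ⊆ Edge w) {A : Fin N → Prop}
    (hA : ∀ i, A i ↔ ed hw i ∈ T) : Conn w s (T \ {ed hw i}) a b ↔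
      Cn (Glue w s) (mate hw) (rm (mate hw) A i) a b :=
  conn_iff hw (Set.sdiff_subset.trans hT) fun j => by simp [rm, hA, ed_eq, not_or]

theorem tree_iff (hw : Exc w) {T : Set (Fin N × Fin N)} (hT : T ⊆ Edge w) :
    IsTree w T ↔ (pe hw).Tree fun i => ed hw i ∈ T := by
  constructor
  · rintro ⟨-, h1, h2⟩
    refine ⟨fun i hi => (congrArg (· ∈ T) ((ed_eq (j := mate hw i) hw).2 (.inr rfl))).mpr hi,
      fun a => (conn_iff hw hT fun _ => .rfl).1
      (h1 a), fun i hi h => h2 _ hi ?_⟩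
    have := (conn_rm hw hT fun _ => .rfl).2 h
    rcases ed_cases hw i with h3 | h3
    · rwa [congrArg Prod.fst h3, congrArg Prod.snd h3]
    · rw [congrArg Prod.fst h3, congrArg Prod.snd h3]
      exact .symm _ _ this
  · intro h
    refine ⟨hT, fun a => (conn_iff hw hT fun _ => .rfl).2 (h.cn a), fun e he h1 => ?_⟩
    have h2 := (ed_iff hw).1 ⟨hT he, .inl rfl⟩
    refine h.br e.1 (h2 ▸ he) ((conn_rm hw hT fun _ => .rfl).1 ?_)
    have h3 : e.2 = mate hw e.1 := (mate_iff hw).2 (.inl (hT he))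
    rw [← h2]
    rw [h3] at h1
    exact h1

theorem crossed_iff (hw : Exc w) {T : Set (Fin N × Fin N)} (hT : T ⊆ Edge w) :
    Crossed w T i ↔ (pe hw).DT (fun i => ed hw i ∈ T) i (!(w i).1) := by
  simp only [Crossed, ← and_assoc, ed_iff hw, exists_eq_left]
  cases h : (w i).1
  · rw [if_neg (by simp), conn_rm hw hT (A := Pe.side (fun i => ed hw i ∈ T) true)
      fun _ => by simp [Pe.side]]
    simp [Pe.DT, Pe.side, pe]
  · rw [if_pos rfl, conn_rm hw Set.sdiff_subset (A := Pe.side (fun i => ed hw i ∈ T) false)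
      fun _ => by simp [Pe.side, ed_mem]]
    simp [Pe.DT, Pe.side, pe]

end Pool.Agent.Lib.MP_9c288a_pr
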